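import Pool.Agent.N625.SI.Cond
import Pool.Agent.R970.SI.Unif

/-!
Approximate back-and-forth systems between tracial von Neumann algebras.
-/

set_option autoImplicit false

open scoped ComplexOrder InnerProductSpace

namespace Pool.Agent.N625.SI

open Pool.Agent.H504R3 (TVN)
open Pool.Agent.H504R3.S
open Pool.Agent.Helper278 (TrAlg n2 n2_nonneg)
open Pool.Agent.R970.SI

/-- partial isomorphisms -/
structure PIso (T1 T2 : TVN) (ρ : Set (T1.E × T2.E)) : Prop where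
  one : ((1 : T1.E), (1 : T2.E)) ∈ ρ
  add : ∀ p ∈ ρ, ∀ q ∈ ρ, (p.1 + q.1, p.2 + q.2) ∈ ρ
  mul : ∀ p ∈ ρ, ∀ q ∈ ρ, (p.1 * q.1, p.2 * q.2) ∈ ρ
  adj : ∀ p ∈ ρ, (star p.1, star p.2) ∈ ρ
  scal : ∀ (c : ℂ), ∀ p ∈ ρ, (c • p.1, c • p.2) ∈ ρ
  tr : ∀ p ∈ ρ, T1.τ p.1 = T2.τ p.2

/-- approximate back-and-forth systems -/
structure BF (T1 T2 : TVN) (I : Set (Set (T1.E × T2.E))) : Prop where
  piso : ∀ ρ ∈ I, PIso T1 T2 ρ
  forth : ∀ ρ ∈ I, ∀ (r : ℕ) (y : T1.E), T1.opNorm y ≤ r → ∀ δ : ℝ, 0 < δ →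
    ∃ ρ' ∈ I, ρ ⊆ ρ' ∧ ∃ p ∈ ρ', T1.opNorm p.1 ≤ r ∧ T2.opNorm p.2 ≤ r ∧ T1.norm2 (y - p.1) ≤ δ
  back : ∀ ρ ∈ I, ∀ (r : ℕ) (y : T2.E), T2.opNorm y ≤ r → ∀ δ : ℝ, 0 < δ →
    ∃ ρ' ∈ I, ρ ⊆ ρ' ∧ ∃ p ∈ ρ', T1.opNorm p.1 ≤ r ∧ T2.opNorm p.2 ≤ r ∧ T2.norm2 (y - p.2) ≤ δ

variable {T1 T2 : TVN}

theorem PIso.term {ρ : Set (T1.E × T2.E)} (h : PIso T1 T2 ρ) {V : Type} (z : V → T1.E × T2.E)
    (hz : ∀ v, z v ∈ ρ) (t : Tm V) :
      (tval T1 (fun v => (z v).1) t, tval T2 (fun v => (z v).2) t) ∈ ρ := by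
  induction t with
  | var v => exact hz v
  | one => exact h.one
  | add s t hs ht =>
    have := h.add _ hs _ ht
    exact this
  | mul s t hs ht =>
    have := h.mul _ hs _ ht
    exact this
  | adj s hs =>
    have := h.adj _ hs
    exact this
  | scal c s hs =>
    have := h.scal c _ hs
    exact this

theorem PIso.norm2 {ρ : Set (T1.E × T2.E)} (h : PIso T1 T2 ρ) (p : T1.E × T2.E) (hp : p ∈ ρ) :
    T1.norm2 p.1 = T2.norm2 p.2 := by
  unfold TVN.norm2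
  rw [h.tr _ (h.mul _ (h.adj _ hp) _ hp)]

theorem sup_eq_of2 {α β : Type} [Nonempty α] [Nonempty β] {f : α → ℝ} {g : β → ℝ}
    {C : ℝ} (hf : ∀ a, |f a| ≤ C) (hg : ∀ b, |g b| ≤ C)
    (h1 : ∀ a, ∀ ε : ℝ, 0 < ε → ∃ b, |f a - g b| ≤ ε)
    (h2 : ∀ b, ∀ ε : ℝ, 0 < ε → ∃ a, |f a - g b| ≤ ε) : (⨆ a, f a) = ⨆ b, g b := by
  apply le_antisymm
  · apply le_of_forall_pos_le_add
    intro ε hε
    refine ciSup_le fun a => ?_
    obtain ⟨b, hb⟩ := h1 a ε hε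
    have := le_ciSup (f := g) ⟨C, by rintro _ ⟨b, rfl⟩; exact (abs_le.1 (hg b)).2⟩ b
    linarith [(abs_le.1 hb).2]
  · apply le_of_forall_pos_le_add
    intro ε hε
    refine ciSup_le fun b => ?_
    obtain ⟨a, ha⟩ := h2 b ε hε
    have := le_ciSup (f := f) ⟨C, by rintro _ ⟨b, rfl⟩; exact (abs_le.1 (hf b)).2⟩ a
    linarith [(abs_le.1 ha).1]

theorem inf_eq_of2 {α β : Type} [Nonempty α] [Nonempty β] {f : α → ℝ} {g : β → ℝ}
    {C : ℝ} (hf : ∀ a, |f a| ≤ C) (hg : ∀ b, |g b| ≤ C)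
    (h1 : ∀ a, ∀ ε : ℝ, 0 < ε → ∃ b, |f a - g b| ≤ ε)
    (h2 : ∀ b, ∀ ε : ℝ, 0 < ε → ∃ a, |f a - g b| ≤ ε) : (⨅ a, f a) = ⨅ b, g b := by
  apply le_antisymm
  · apply le_of_forall_pos_le_add
    intro ε hε
    rw [← sub_le_iff_le_add]
    refine le_ciInf fun b => ?_
    obtain ⟨a, ha⟩ := h2 b ε hε
    have := ciInf_le (f := f) ⟨-C, by rintro _ ⟨b, rfl⟩; exact (abs_le.1 (hf b)).1⟩ a
    linarith [(abs_le.1 ha).2]
  · apply le_of_forall_pos_le_add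
    intro ε hε
    rw [← sub_le_iff_le_add]
    refine le_ciInf fun a => ?_
    obtain ⟨b, hb⟩ := h1 a ε hε
    have := ciInf_le (f := g) ⟨-C, by rintro _ ⟨b, rfl⟩; exact (abs_le.1 (hg b)).1⟩ b
    linarith [(abs_le.1 hb).1]

theorem exists_bound {n : ℕ} {T : TVN} (a : Fin n → T.E) :
    ∃ R : ℝ, 0 ≤ R ∧ ∀ i, T.opNorm (a i) ≤ R := by
  refine ⟨∑ i, T.opNorm (a i), Finset.sum_nonneg fun i _ => op_nonneg T _, fun i => ?_⟩
  exact Finset.single_le_sum (f := fun i => T.opNorm (a i)) (fun i _ => op_nonneg T _)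
    (Finset.mem_univ i)

/-- the change of a formula under a change of the first variable -/
theorem close_cons {n : ℕ} (φ : Fm (n + 1)) (r : ℕ) (T : TVN) (x : Fin n → T.E) (ε : ℝ)
    (hε : 0 < ε) : ∃ δ : ℝ, 0 < δ ∧ ∀ y z : T.E, T.opNorm y ≤ r → T.opNorm z ≤ r →
      T.norm2 (y - z) ≤ δ → |φ.val (str T) (Fin.cons y x : Fin (n + 1) → T.E) -
        φ.val (str T) (Fin.cons z x : Fin (n + 1) → T.E)| ≤ ε := by
  obtain ⟨R, hR, hx⟩ := exists_bound x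
  obtain ⟨δ, hδ, h⟩ := (good φ).2 (max R r) (by positivity) ε hε
  refine ⟨δ, hδ, fun y z hy hz hyz => ?_⟩
  refine h T _ _ (cons_op hx ⟨y, hy⟩) (cons_op hx ⟨z, hz⟩) ?_
  intro i
  refine Fin.cases ?_ (fun i => ?_) i
  · exact hyz
  · exact (norm2_self T (x i)).le.trans hδ.le

theorem bdd_cons {n : ℕ} (φ : Fm (n + 1)) (r : ℕ) (T : TVN) (x : Fin n → T.E) : ∃ C : ℝ,
    ∀ y : (str T).Ball r, |φ.val (str T) (Fin.cons y.1 x)| ≤ C := by
  obtain ⟨R, hR, hx⟩ := exists_bound x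
  obtain ⟨C, hC⟩ := (good φ).1 (max R r) (by positivity)
  exact ⟨C, fun y => hC T _ (cons_op hx y)⟩

theorem cons_pair {n : ℕ} (p : T1.E × T2.E) (z : Fin n → T1.E × T2.E) :
    (fun i => ((Fin.cons p z : Fin (n + 1) → T1.E × T2.E) i).1) =
      (Fin.cons p.1 (fun i => (z i).1) : Fin (n + 1) → T1.E) ∧
    (fun i => ((Fin.cons p z : Fin (n + 1) → T1.E × T2.E) i).2) =
      (Fin.cons p.2 (fun i => (z i).2) : Fin (n + 1) → T2.E) := by
  constructor <;>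
  · funext i
    refine Fin.cases rfl (fun i => rfl) i

/-- Formulas have the same value at tuples in a partial isomorphism of a back-and-forth system. -/
theorem BF.val_eq {I : Set (Set (T1.E × T2.E))} (h : BF T1 T2 I) {n : ℕ} (φ : Fm n) :
    ∀ ρ ∈ I, ∀ z : Fin n → T1.E × T2.E, (∀ i, z i ∈ ρ) →
      φ.val (str T1) (fun i => (z i).1) = φ.val (str T2) (fun i => (z i).2) := by
  induction φ with
  | re t =>
    intro ρ hρ z hz
    have h1 := (h.piso ρ hρ).tr _ ((h.piso ρ hρ).term z hz t)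
    show (T1.τ (tval T1 (fun i => (z i).1) t)).re = (T2.τ (tval T2 (fun i => (z i).2) t)).re
    exact congrArg Complex.re h1
  | im t =>
    intro ρ hρ z hz
    have h1 := (h.piso ρ hρ).tr _ ((h.piso ρ hρ).term z hz t)
    show (T1.τ (tval T1 (fun i => (z i).1) t)).im = (T2.τ (tval T2 (fun i => (z i).2) t)).im
    exact congrArg Complex.im h1
  | nrm t =>
    intro ρ hρ z hz
    have h1 := (h.piso ρ hρ).norm2 _ ((h.piso ρ hρ).term z hz t)
    show T1.norm2 (tval T1 (fun i => (z i).1) t) = T2.norm2 (tval T2 (fun i => (z i).2) t)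
    exact h1
  | conn u φ ih =>
    intro ρ hρ z hz
    show u (fun i => (φ i).val (str T1) _) = u (fun i => (φ i).val (str T2) _)
    congr 1
    funext i
    exact ih i ρ hρ z hz
  | @sup n r φ ih =>
    intro ρ hρ z hz
    obtain ⟨C, hC⟩ := bdd_cons φ r T1 (fun i => (z i).1)
    obtain ⟨D, hD⟩ := bdd_cons φ r T2 (fun i => (z i).2)
    have key : ∀ ρ' ∈ I, ρ ⊆ ρ' → ∀ p ∈ ρ',
        φ.val (str T1) (Fin.cons p.1 (fun i => (z i).1) : Fin (n + 1) → T1.E) =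
        φ.val (str T2) (Fin.cons p.2 (fun i => (z i).2) : Fin (n + 1) → T2.E) := by
      intro ρ' hρ' hs p hp
      have h1 := ih ρ' hρ' (Fin.cons p z) (fun i => by
        refine Fin.cases ?_ (fun i => ?_) i
        · exact hp
        · exact hs (hz i))
      have e1 := congrArg (φ.val (str T1)) (cons_pair p z).1
      have e2 := congrArg (φ.val (str T2)) (cons_pair p z).2
      exact e1.symm.trans (h1.trans e2)
    show (⨆ y : (str T1).Ball r, φ.val (str T1) (Fin.cons y.1 (fun i => (z i).1))) =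
      ⨆ y : (str T2).Ball r, φ.val (str T2) (Fin.cons y.1 (fun i => (z i).2))
    refine sup_eq_of2 (C := max C D) (fun y => (hC y).trans (le_max_left _ _))
      (fun y => (hD y).trans (le_max_right _ _)) (fun y ε hε => ?_) (fun y ε hε => ?_)
    · obtain ⟨δ, hδ, hd⟩ := close_cons φ r T1 (fun i => (z i).1) ε hε
      obtain ⟨ρ', hρ', hs, p, hp, h1, h2, h3⟩ := h.forth ρ hρ r y.1 y.2 δ hδ
      refine ⟨⟨p.2, h2⟩, ?_⟩
      have h4 := hd _ _ y.2 h1 h3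
      rw [key ρ' hρ' hs p hp] at h4
      exact h4
    · obtain ⟨δ, hδ, hd⟩ := close_cons φ r T2 (fun i => (z i).2) ε hε
      obtain ⟨ρ', hρ', hs, p, hp, h1, h2, h3⟩ := h.back ρ hρ r y.1 y.2 δ hδ
      refine ⟨⟨p.1, h1⟩, ?_⟩
      have h4 := hd _ _ y.2 h2 h3
      rw [← key ρ' hρ' hs p hp, abs_sub_comm] at h4
      exact h4
  | @inf n r φ ih =>
    intro ρ hρ z hz
    obtain ⟨C, hC⟩ := bdd_cons φ r T1 (fun i => (z i).1)
    obtain ⟨D, hD⟩ := bdd_cons φ r T2 (fun i => (z i).2)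
    have key : ∀ ρ' ∈ I, ρ ⊆ ρ' → ∀ p ∈ ρ',
        φ.val (str T1) (Fin.cons p.1 (fun i => (z i).1) : Fin (n + 1) → T1.E) =
        φ.val (str T2) (Fin.cons p.2 (fun i => (z i).2) : Fin (n + 1) → T2.E) := by
      intro ρ' hρ' hs p hp
      have h1 := ih ρ' hρ' (Fin.cons p z) (fun i => by
        refine Fin.cases ?_ (fun i => ?_) i
        · exact hp
        · exact hs (hz i))
      have e1 := congrArg (φ.val (str T1)) (cons_pair p z).1
      have e2 := congrArg (φ.val (str T2)) (cons_pair p z).2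
      exact e1.symm.trans (h1.trans e2)
    show (⨅ y : (str T1).Ball r, φ.val (str T1) (Fin.cons y.1 (fun i => (z i).1))) =
      ⨅ y : (str T2).Ball r, φ.val (str T2) (Fin.cons y.1 (fun i => (z i).2))
    refine inf_eq_of2 (C := max C D) (fun y => (hC y).trans (le_max_left _ _))
      (fun y => (hD y).trans (le_max_right _ _)) (fun y ε hε => ?_) (fun y ε hε => ?_)
    · obtain ⟨δ, hδ, hd⟩ := close_cons φ r T1 (fun i => (z i).1) ε hε
      obtain ⟨ρ', hρ', hs, p, hp, h1, h2, h3⟩ := h.forth ρ hρ r y.1 y.2 δ hδ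
      refine ⟨⟨p.2, h2⟩, ?_⟩
      have h4 := hd _ _ y.2 h1 h3
      rw [key ρ' hρ' hs p hp] at h4
      exact h4
    · obtain ⟨δ, hδ, hd⟩ := close_cons φ r T2 (fun i => (z i).2) ε hε
      obtain ⟨ρ', hρ', hs, p, hp, h1, h2, h3⟩ := h.back ρ hρ r y.1 y.2 δ hδ
      refine ⟨⟨p.1, h1⟩, ?_⟩
      have h4 := hd _ _ y.2 h2 h3
      rw [← key ρ' hρ' hs p hp, abs_sub_comm] at h4
      exact h4

end Pool.Agent.N625.SI
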