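import Pool.Agent.N625.SI.Norm
import Pool.Agent.R970.SI.Unif

/-!
The conditional expectation onto a finite dimensional star subalgebra.
-/

set_option autoImplicit false

open scoped ComplexOrder InnerProductSpace

namespace Pool.Agent.N625.SI

open Pool.Agent.H504R3 (TVN)
open Pool.Agent.Helper278 (TrAlg n2 n2_nonneg)
open Pool.Agent.R970.SI

/-- orthonormal bases of star subalgebras -/
structure OA {T : TVN} {Λ : Type} (w : Λ → T.E) : Prop where
  same : ∀ i, T.τ (star (w i) * w i) = 1
  ne : ∀ i k, i ≠ k → T.τ (star (w i) * w k) = 0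
  mul : ∀ i k, w i * w k ∈ Submodule.span ℂ (Set.range w)
  star : ∀ i, star (w i) ∈ Submodule.span ℂ (Set.range w)
  one : (1 : T.E) ∈ Submodule.span ℂ (Set.range w)

variable {T : TVN} {Λ : Type} {w : Λ → T.E}

theorem OA.span_mul (h : OA w) {x y : T.E} (hx : x ∈ Submodule.span ℂ (Set.range w))
    (hy : y ∈ Submodule.span ℂ (Set.range w)) : x * y ∈ Submodule.span ℂ (Set.range w) := by
  induction hx using Submodule.span_induction with
  | mem x hx =>
    obtain ⟨v, rfl⟩ := hx
    induction hy using Submodule.span_induction with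
    | mem y hy =>
      obtain ⟨u, rfl⟩ := hy
      exact h.mul v u
    | zero => rw [mul_zero]; exact zero_mem _
    | add a b _ _ ha hb => rw [mul_add]; exact add_mem ha hb
    | smul r a _ ha => rw [mul_smul_comm]; exact Submodule.smul_mem _ _ ha
  | zero => rw [zero_mul]; exact zero_mem _
  | add a b _ _ ha hb => rw [add_mul]; exact add_mem ha hb
  | smul r a _ ha => rw [smul_mul_assoc]; exact Submodule.smul_mem _ _ ha

theorem OA.span_star (h : OA w) {x : T.E} (hx : x ∈ Submodule.span ℂ (Set.range w)) :
    Star.star x ∈ Submodule.span ℂ (Set.range w) := by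
  induction hx using Submodule.span_induction with
  | mem x hx =>
    obtain ⟨v, rfl⟩ := hx
    exact h.star v
  | zero => rw [star_zero]; exact zero_mem _
  | add a b _ _ ha hb => rw [star_add]; exact add_mem ha hb
  | smul r a _ ha => rw [star_smul]; exact Submodule.smul_mem _ _ ha

theorem OA.span_pow (h : OA w) {x : T.E} (hx : x ∈ Submodule.span ℂ (Set.range w)) (m : ℕ) :
    x ^ m ∈ Submodule.span ℂ (Set.range w) := by
  induction m with
  | zero => rw [pow_zero]; exact h.one
  | succ m ih => rw [pow_succ]; exact h.span_mul ih hx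

variable [Fintype Λ]

/-- the conditional expectation -/
noncomputable def Eo (w : Λ → T.E) (y : T.E) : T.E := ∑ i, T.τ (star (w i) * y) • w i

theorem Eo_mem (y : T.E) : Eo w y ∈ Submodule.span ℂ (Set.range w) :=
  Submodule.sum_mem _ fun i _ => Submodule.smul_mem _ _ (Submodule.subset_span ⟨i, rfl⟩)

theorem OA.tau_star (h : OA w) (y : T.E) {t : T.E} (ht : t ∈ Submodule.span ℂ (Set.range w)) :
    T.τ (Star.star t * Eo w y) = T.τ (Star.star t * y) := by
  classical
  induction ht using Submodule.span_induction with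
  | mem x hx =>
    obtain ⟨i, rfl⟩ := hx
    unfold Eo
    rw [Finset.mul_sum, map_sum, Finset.sum_eq_single i]
    · rw [mul_smul_comm, map_smul, h.same, smul_eq_mul, mul_one]
    · intro k _ hk
      rw [mul_smul_comm, map_smul, h.ne i k (Ne.symm hk), smul_zero]
    · intro hi
      exact absurd (Finset.mem_univ i) hi
  | zero => rw [star_zero, zero_mul, zero_mul]
  | add a b _ _ ha hb => rw [star_add, add_mul, add_mul, map_add, map_add, ha, hb]
  | smul r a _ ha => rw [star_smul, smul_mul_assoc, smul_mul_assoc, map_smul, map_smul, ha]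

theorem OA.tau (h : OA w) (y : T.E) {s : T.E} (hs : s ∈ Submodule.span ℂ (Set.range w)) :
    T.τ (s * Eo w y) = T.τ (s * y) := by
  have := h.tau_star y (h.span_star hs)
  rwa [star_star] at this

theorem n2_le_of {d e : T.E} (h : (T.τ (star d * d)).re = (T.τ (star d * e)).re) :
    n2 T.τ d ≤ n2 T.τ e := by
  have h1 := T.trAlg.n2_sq d
  have h2 := T.trAlg.cauchy d e
  have h3 := Complex.re_le_norm (T.τ (star d * e))
  have h4 := n2_nonneg T.τ d
  have h5 := n2_nonneg T.τ e
  rw [h] at h1
  by_contra hlt
  push Not at hlt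
  nlinarith

theorem OA.bdd_left (h : OA w) (y : T.E) {z : T.E} (hz : z ∈ Submodule.span ℂ (Set.range w)) :
    n2 T.τ (Eo w y * z) ≤ T.opNorm y * n2 T.τ z := by
  set d := Eo w y * z with hd
  have hdS : d ∈ Submodule.span ℂ (Set.range w) := h.span_mul (Eo_mem y) hz
  refine (n2_le_of (e := y * z) ?_).trans (T.n2_mul_le y z).1
  congr 1
  calc T.τ (Star.star d * d) = T.τ ((Star.star d * Eo w y) * z) := by rw [hd, mul_assoc]
    _ = T.τ ((z * Star.star d) * Eo w y) := by rw [T.tracial, ← mul_assoc]
    _ = T.τ ((z * Star.star d) * y) := h.tau y (h.span_mul hz (h.span_star hdS))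
    _ = T.τ (Star.star d * (y * z)) := by rw [mul_assoc, T.tracial, mul_assoc]

theorem OA.bdd_right (h : OA w) (y : T.E) {z : T.E} (hz : z ∈ Submodule.span ℂ (Set.range w)) :
    n2 T.τ (z * Eo w y) ≤ n2 T.τ z * T.opNorm y := by
  set d := z * Eo w y with hd
  have hdS : d ∈ Submodule.span ℂ (Set.range w) := h.span_mul hz (Eo_mem y)
  refine (n2_le_of (e := z * y) ?_).trans (T.n2_mul_le y z).2
  congr 1
  calc T.τ (Star.star d * d) = T.τ ((Star.star d * z) * Eo w y) := by rw [hd, mul_assoc]
    _ = T.τ ((Star.star d * z) * y) := h.tau y (h.span_mul (h.span_star hdS) hz)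
    _ = T.τ (Star.star d * (z * y)) := by rw [mul_assoc]

/-- The conditional expectation is a contraction. -/
theorem OA.op_le (h : OA w) (y : T.E) : T.opNorm (Eo w y) ≤ T.opNorm y := by
  have hp := op_nonneg T y
  refine opNorm_le_of_moments T _ _ hp fun m => ?_
  have key : ∀ m : ℕ, n2 T.τ ((Star.star (Eo w y) * Eo w y) ^ m) ≤ T.opNorm y ^ (2 * m) := by
    intro m
    have hpS : ∀ m, (Star.star (Eo w y) * Eo w y) ^ m ∈ Submodule.span ℂ (Set.range w) :=
      fun m => h.span_pow (h.span_mul (h.span_star (Eo_mem y)) (Eo_mem y)) m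
    induction m with
    | zero =>
      rw [pow_zero, mul_zero, pow_zero]
      exact (norm2_one T).le
    | succ m ih =>
      rw [pow_succ', mul_assoc]
      have h1 := h.bdd_left y (hpS m)
      have h2 := h.bdd_right y (h.span_star (h.span_mul (Eo_mem (w := w) y) (hpS m)))
      have h3 : n2 T.τ (Star.star (Eo w y) * (Eo w y * (Star.star (Eo w y) * Eo w y) ^ m)) =
          n2 T.τ (Star.star (Eo w y * (Star.star (Eo w y) * Eo w y) ^ m) * Eo w y) := by
        rw [← T.trAlg.n2_star, star_mul, star_star]
      rw [h3]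
      rw [T.trAlg.n2_star] at h2
      calc _ ≤ _ := h2
        _ ≤ (T.opNorm y * T.opNorm y ^ (2 * m)) * T.opNorm y := by
          refine mul_le_mul_of_nonneg_right (h1.trans ?_) hp
          exact mul_le_mul_of_nonneg_left ih hp
        _ = T.opNorm y ^ (2 * (m + 1)) := by ring
  exact (Complex.re_le_norm _).trans ((tau_le T _).trans (key m))

/-- The conditional expectation is the best approximation. -/
theorem OA.approx (h : OA w) (y : T.E) {s : T.E} (hs : s ∈ Submodule.span ℂ (Set.range w)) :
    n2 T.τ (y - Eo w y) ≤ n2 T.τ (y - s) := by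
  refine n2_le_of ?_
  have key : ∀ t ∈ Submodule.span ℂ (Set.range w), T.τ (Star.star (y - Eo w y) * t) = 0 := by
    intro t ht
    have h1 : T.τ (Star.star t * (y - Eo w y)) = 0 := by
      rw [mul_sub, map_sub, h.tau_star y ht, sub_self]
    have h2 := T.trAlg.conj (Star.star t * (y - Eo w y))
    rw [h1, star_mul, star_star, star_zero] at h2
    exact h2
  rw [mul_sub, map_sub, key _ (Eo_mem y), mul_sub, map_sub, key _ hs]

end Pool.Agent.N625.SI
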