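import Pool.Agent.H504R3.SDefs

/-!
Simplicity of the continuous theory of a tracial von Neumann algebra: elementary embeddings,
indiscernible sequences, complete types, dividing.
-/

set_option autoImplicit false

namespace Pool.Agent.N625.SI

open Pool.Agent.H504R3.S

/-- Formulas of the continuous logic of tracial von Neumann algebras with variables from `V`: a
formula `fm` with `n` free variables, in which the variable `v k` is put in the place of the `k`-th
free variable. -/
structure LF (V : Type) : Type where
  /-- the number of free variables -/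
  n : ℕ
  /-- the formula -/
  fm : Fm n
  /-- the variables -/
  v : Fin n → V

/-- The value in `M` of a formula with variables from `V` when the variable `v` has the value
`x v`. -/
noncomputable def LF.val (M : Str) {V : Type} (ψ : LF V) (x : V → M.carrier) : ℝ :=
  ψ.fm.val M fun k => x (ψ.v k)

/-- `j` is an elementary embedding of `M` in `N`: every formula with parameters from `M` has the
same value in `M` and in `N`. -/
def IsElem (M N : Str) (j : M.carrier → N.carrier) : Prop :=
  ∀ ψ : LF M.carrier, ψ.val N j = ψ.val M id

/-- The sequence `s 0, s 1, …` of tuples of elements of `N`, indexed by `B`, is indiscernible over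
the set `A`: every formula with parameters from `A` has the same value at
`s (i 0), …, s (i (k - 1))` as at `s (i' 0), …, s (i' (k - 1))`, for all `i 0 < … < i (k - 1)` and
`i' 0 < … < i' (k - 1)`. -/
def Indiscernible (N : Str) (A : Set N.carrier) {B : Type} (s : ℕ → B → N.carrier) : Prop :=
  ∀ (k : ℕ) (i i' : Fin k → ℕ), StrictMono i → StrictMono i' → ∀ ψ : LF (A ⊕ Fin k × B),
    ψ.val N (Sum.elim Subtype.val fun q => s (i q.1) q.2) =
      ψ.val N (Sum.elim Subtype.val fun q => s (i' q.1) q.2)

/-- `p` is a complete type over the subset `B` of `M` in `m` variables which range over the operator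
norm ball of radius `r`: a family of conditions `ψ = p ψ`, one for each formula `ψ` in the `m`
variables and with parameters from `B`, finitely many of which can always be satisfied up to `ε` in
`M`. -/
def IsType (M : Str) (B : Set M.carrier) (m r : ℕ) (p : LF (Fin m ⊕ B) → ℝ) : Prop :=
  ∀ (S : Finset (LF (Fin m ⊕ B))) (ε : ℝ), 0 < ε → ∃ x : Fin m → M.Ball r, ∀ ψ ∈ S,
    |ψ.val M (Sum.elim (fun i => (x i).1) Subtype.val) - p ψ| < ε

/-- The union of the types `p(x, s i)`, `i ∈ ℕ`, is consistent: finitely many of the conditions
`ψ(x, s i) = p ψ`, where `x` ranges over the `m`-tuples in the ball of radius `r`, can always be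
satisfied up to `ε` in `N`. -/
def Consistent (N : Str) (m r : ℕ) {B : Type} (p : LF (Fin m ⊕ B) → ℝ)
    (s : ℕ → B → N.carrier) : Prop :=
  ∀ (S : Finset (ℕ × LF (Fin m ⊕ B))) (ε : ℝ), 0 < ε → ∃ x : Fin m → N.Ball r, ∀ c ∈ S,
    |c.2.val N (Sum.elim (fun i => (x i).1) (s c.1)) - p c.2| < ε

/-- The type `p` over `B` divides over `A`: there are an elementary extension `N` of `M` (a tracial
von Neumann algebra) and a sequence `s` of tuples indexed by `B` in `N` which is indiscernible over
`A`, such that `s 0` is the tuple of the elements of `B` and the union of the types `p(x, s i)`,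
`i ∈ ℕ`, is inconsistent. -/
def Divides (M : Str) (B : Set M.carrier) (m r : ℕ) (p : LF (Fin m ⊕ B) → ℝ)
    (A : Set M.carrier) : Prop :=
  ∃ (N : Str) (j : M.carrier → N.carrier), N.IsTVN ∧ IsElem M N j ∧ ∃ s : ℕ → B → N.carrier,
    (∀ b : B, s 0 b = j b.1) ∧ Indiscernible N (j '' A) s ∧ ¬ Consistent N m r p s

/-- The set `A` is separable for the 2-norm: it has a countable dense subset. -/
def SepSet (M : Str) (A : Set M.carrier) : Prop :=
  ∃ D : Set M.carrier, D ⊆ A ∧ D.Countable ∧
    ∀ x ∈ A, ∀ ε : ℝ, 0 < ε → ∃ y ∈ D, M.norm2 (M.sub x y) < ε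

/-- The continuous theory of `R` is simple: for every model `M` of it, every complete type over a
subset `B` of `M` does not divide over some separable subset of `B`. -/
def IsSimple (R : Str) : Prop :=
  ∀ M : Str, M.IsTVN → M.ElemEq R → ∀ (B : Set M.carrier) (m r : ℕ) (p : LF (Fin m ⊕ B) → ℝ),
    IsType M B m r p → ∃ A : Set M.carrier, A ⊆ B ∧ SepSet M A ∧ ¬ Divides M B m r p A

end Pool.Agent.N625.SI
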