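import Pool.Agent.N625.SI.Model

/-!
Products of flips.
-/

set_option autoImplicit false

open scoped ComplexOrder InnerProductSpace

namespace Pool.Agent.N625.SI

open Pool.Agent.H504R3 (TVN flip_alg flip_star_alg)
open Pool.Agent.H504R3.S
open Pool.Agent.Helper278 (TrAlg n2 n2_nonneg)
open Pool.Agent.Helper436.SM (sg sg_add sg_mul_self norm_sg star_sg)
open Pool.Agent.R970.SI

variable {T : TVN} {ι : Type} {W : VI ι → T.E}

theorem bI_single (k l : ι) (a b : ZMod 2 × ZMod 2) [Decidable (k = l)] :
    bI (Finsupp.single k a) (Finsupp.single l b) = if k = l then a.2 * b.1 else 0 := by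
  classical
  unfold bI
  rw [Finsupp.sum_single_index (by simp), Finsupp.single_apply]
  by_cases h : k = l
  · subst h; simp
  · rw [if_neg (Ne.symm h), if_neg h]; simp

theorem sg_zero : sg 0 = 1 := if_pos rfl

theorem sg_one : sg (1 : ZMod 2) = -1 := by unfold sg; rw [if_neg (by decide)]

/-- the Pauli matrix `X` of the copy `q` -/
noncomputable def xx (W : VI ι → T.E) (q : ι) : T.E := W (Finsupp.single q (1, 0))

theorem PSys.xx_sq (h : PSys T W) (q : ι) : xx W q * xx W q = 1 := by
  classical
  unfold xx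
  rw [h.mul, vi_add_self, h.zero, bI_single, if_pos rfl, zero_mul, sg_zero, one_smul]

theorem PSys.zz_sq (h : PSys T W) (q : ι) : zz W q * zz W q = 1 := by
  classical
  unfold zz
  rw [h.mul, vi_add_self, h.zero, bI_single, if_pos rfl, mul_zero, sg_zero, one_smul]

theorem PSys.zx (h : PSys T W) (q : ι) : zz W q * xx W q = - (xx W q * zz W q) := by
  classical
  unfold zz xx
  rw [h.mul, h.mul, bI_single, bI_single, if_pos rfl, if_pos rfl, mul_one, zero_mul, sg_zero,
    one_smul, sg_one, neg_one_smul, add_comm]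

theorem PSys.star_xx (h : PSys T W) (q : ι) : star (xx W q) = xx W q := by
  classical
  unfold xx
  rw [h.adj, bI_single, if_pos rfl, zero_mul, sg_zero, one_smul]

theorem PSys.star_zz (h : PSys T W) (q : ι) : star (zz W q) = zz W q := by
  classical
  unfold zz
  rw [h.adj, bI_single, if_pos rfl, mul_zero, sg_zero, one_smul]

theorem PSys.comm (h : PSys T W) {k l : ι} (hkl : k ≠ l) (a b : ZMod 2 × ZMod 2) :
    W (Finsupp.single k a) * W (Finsupp.single l b) =
      W (Finsupp.single l b) * W (Finsupp.single k a) := by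
  classical
  rw [h.mul, h.mul, bI_single, bI_single, if_neg hkl, if_neg (Ne.symm hkl), add_comm]

/-- the flip -/
noncomputable def flp (W : VI ι → T.E) (p q : ι) : T.E :=
  (2⁻¹ : ℂ) • (1 + xx W p * xx W q + zz W p * zz W q - xx W p * zz W p * xx W q * zz W q)

theorem PSys.flp_props (h : PSys T W) {p q : ι} (hpq : p ≠ q) :
    flp W p q * flp W p q = 1 ∧ star (flp W p q) = flp W p q ∧
    flp W p q * zz W p = zz W q * flp W p q := by
  have c1 : xx W q * xx W p = xx W p * xx W q := h.comm hpq.symm _ _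
  have c2 : xx W q * zz W p = zz W p * xx W q := h.comm hpq.symm _ _
  have c3 : zz W q * xx W p = xx W p * zz W q := h.comm hpq.symm _ _
  have c4 : zz W q * zz W p = zz W p * zz W q := h.comm hpq.symm _ _
  obtain ⟨h1, -, h3⟩ := flip_alg (h.xx_sq p) (h.zz_sq p) (h.zx p) (h.xx_sq q) (h.zz_sq q) (h.zx q)
    c1 c2 c3 c4
  have h4 := flip_star_alg (h.zx p) (h.zx q) c1 c2 c3 c4
  refine ⟨?_, ?_, ?_⟩
  · unfold flp
    rw [smul_mul_smul_comm, h1, smul_smul]
    norm_num
  · unfold flp
    rw [star_smul, star_sub, star_add, star_add, star_one, star_mul, star_mul,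
      star_mul, star_mul, star_mul, h.star_xx, h.star_xx, h.star_zz, h.star_zz, h4, c1, c4]
    congr 1
    simp
  · unfold flp
    rw [smul_mul_assoc, h3, mul_smul_comm]

theorem PSys.flp_comm (h : PSys T W) {p q r : ι} (hp : p ≠ r) (hq : q ≠ r) :
    flp W p q * zz W r = zz W r * flp W p q := by
  have c1 : xx W p * zz W r = zz W r * xx W p := h.comm hp _ _
  have c2 : zz W p * zz W r = zz W r * zz W p := h.comm hp _ _
  have c3 : xx W q * zz W r = zz W r * xx W q := h.comm hq _ _
  have c4 : zz W q * zz W r = zz W r * zz W q := h.comm hq _ _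
  have key : ∀ a b : T.E, a * zz W r = zz W r * a → b * zz W r = zz W r * b →
      (a * b) * zz W r = zz W r * (a * b) := by
    intro a b ha hb
    rw [mul_assoc, hb, ← mul_assoc, ha, mul_assoc]
  unfold flp
  rw [smul_mul_assoc, mul_smul_comm, sub_mul, mul_sub, add_mul, mul_add, add_mul, mul_add, one_mul,
    mul_one, key _ _ c1 c3, key _ _ c2 c4, key _ _ (key _ _ (key _ _ c1 c2) c3) c4]

theorem op_unitary (T : TVN) {u : T.E} (hu : star u * u = 1) : T.opNorm u ≤ 1 := by
  refine opNorm_le_of_moments T _ _ zero_le_one fun m => ?_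
  rw [hu, one_pow, T.map_one, one_pow]
  simp

/-- products of flips -/
theorem PSys.exists_prod {I : Type} {W : VI (I × ℕ) → T.E} (h : PSys T W) (S : Finset I) :
    ∃ x : T.E, star x * x = 1 ∧ x * star x = 1 ∧
      (∀ i ∈ S, x * zz W (i, 0) = zz W (i, 1) * x) ∧
      ∀ i ∉ S, x * zz W (i, 0) = zz W (i, 0) * x := by
  classical
  induction S using Finset.induction_on with
  | empty =>
    refine ⟨1, by simp, by simp, fun i hi => absurd hi (Finset.notMem_empty i), fun i _ => ?_⟩
    rw [one_mul, mul_one]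
  | insert i S hi ih =>
    obtain ⟨x, h1, h2, h3, h4⟩ := ih
    have hne : ((i, 0) : I × ℕ) ≠ (i, 1) := by
      intro h0
      exact absurd (congrArg Prod.snd h0) (by norm_num)
    obtain ⟨f1, f2, f3⟩ := h.flp_props hne
    set u := flp W (i, 0) (i, 1) with hu
    refine ⟨u * x, ?_, ?_, ?_, ?_⟩
    · rw [star_mul, f2, mul_assoc, ← mul_assoc u u, f1, one_mul, h1]
    · rw [star_mul, f2, mul_assoc, ← mul_assoc x, h2, one_mul, f1]
    · intro k hk
      rw [Finset.mem_insert] at hk
      by_cases hki : k = i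
      · subst hki
        rw [mul_assoc, h4 k hi, ← mul_assoc, f3, mul_assoc]
      · have hkS : k ∈ S := hk.resolve_left hki
        have hc : u * zz W (k, 1) = zz W (k, 1) * u :=
          h.flp_comm (fun h0 => hki (congrArg Prod.fst h0).symm)
            (fun h0 => hki (congrArg Prod.fst h0).symm)
        rw [mul_assoc, h3 k hkS, ← mul_assoc, hc, mul_assoc]
    · intro k hk
      rw [Finset.mem_insert, not_or] at hk
      have hc : u * zz W (k, 0) = zz W (k, 0) * u :=
        h.flp_comm (fun h0 => hk.1 (congrArg Prod.fst h0).symm)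
          (fun h0 => hk.1 (congrArg Prod.fst h0).symm)
      rw [mul_assoc, h4 k hk.2, ← mul_assoc, hc, mul_assoc]

/-- the distance of two Pauli matrices -/
theorem PSys.dist_zz (h : PSys T W) {p q : ι} (hpq : p ≠ q) :
    T.norm2 (zz W p - zz W q) ^ 2 = 2 := by
  classical
  have e : star (zz W p - zz W q) * (zz W p - zz W q) = (2 : ℂ) • (1 : T.E) - zz W p * zz W q -
      zz W q * zz W p := by
    rw [star_sub, h.star_zz, h.star_zz, sub_mul, mul_sub, mul_sub, h.zz_sq, h.zz_sq]
    rw [two_smul]
    abel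
  have ht : ∀ p q : ι, p ≠ q → T.τ (zz W p * zz W q) = 0 := by
    intro p q hpq
    unfold zz
    rw [h.mul, map_smul, h.trace, smul_zero]
    intro h0
    have h1 := DFunLike.congr_fun h0 p
    rw [Finsupp.add_apply, Finsupp.single_eq_same, Finsupp.single_eq_of_ne hpq, add_zero] at h1
    have h2 : ((0, 1) : ZMod 2 × ZMod 2) = 0 := h1
    exact absurd (congrArg Prod.snd h2) (by decide)
  have h2 : T.norm2 (zz W p - zz W q) ^ 2 = (T.τ (star (zz W p - zz W q) *
      (zz W p - zz W q))).re := T.trAlg.n2_sq _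
  rw [h2, e, map_sub, map_sub, map_smul, ht p q hpq, ht q p hpq.symm, T.map_one]
  simp

theorem PSys.zz_inj (h : PSys T W) : Function.Injective (zz W) := by
  intro p q hpq
  by_contra hne
  have h1 := h.dist_zz hne
  rw [hpq, sub_self, norm2_zero] at h1
  norm_num at h1

end Pool.Agent.N625.SI
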