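import Pool.Agent.N625.SI.Flp
import Pool.Agent.N625.SI.Defs

/-!
The continuous theory of the hyperfinite factor is not simple.
-/

set_option autoImplicit false

open scoped ComplexOrder InnerProductSpace Topology
open Filter

namespace Pool.Agent.N625.SI

open Pool.Agent.H504R3 (TVN)
open Pool.Agent.H504R3.S
open Pool.Agent.R970.SI

section

variable {T : TVN} {ι : Type} {W : VI ι → T.E}

theorem PSys.op_zz (h : PSys T W) (q : ι) : T.opNorm (zz W q) ≤ 1 := by
  refine op_unitary T ?_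
  rw [h.star_zz, h.zz_sq]

/-- the set of parameters -/
def BB {I : Type} (W : VI (I × ℕ) → T.E) : Set T.E := zz W '' {q | q.2 ≤ 1}

/-- the moved position -/
def mv {I : Type} [DecidableEq I] (i₀ : I) (j : ℕ) (q : I × ℕ) : I × ℕ :=
  if q = (i₀, 1) then (i₀, j + 1) else q

theorem mv_zero {I : Type} [DecidableEq I] (i₀ : I) (q : I × ℕ) : mv i₀ 0 q = q := by
  unfold mv
  split_ifs with h
  · exact h.symm
  · rfl

/-- the positions of a pattern -/
def PP {I : Type} [DecidableEq I] (i₀ : I) {k : ℕ} {A B : Type} (pA : A → I × ℕ)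
    (pB : B → I × ℕ) (i : Fin k → ℕ) : A ⊕ Fin k × B → I × ℕ :=
  Sum.elim pA fun q => mv i₀ (i q.1) (pB q.2)

theorem PP_imp {I : Type} [DecidableEq I] (i₀ : I) {k : ℕ} {A B : Type} (pA : A → I × ℕ)
    (pB : B → I × ℕ) (hA : ∀ a, (pA a).2 ≤ 1) (hA' : ∀ a, pA a ≠ (i₀, 1)) (hB : ∀ b, (pB b).2 ≤ 1)
    (i i' : Fin k → ℕ) (hi : StrictMono i) (u v : A ⊕ Fin k × B)
    (h : PP i₀ pA pB i u = PP i₀ pA pB i v) : PP i₀ pA pB i' u = PP i₀ pA pB i' v := by
  have key : ∀ (q : I × ℕ) (p : Fin k) (y : B), q.2 ≤ 1 → q ≠ (i₀, 1) →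
      q = mv i₀ (i p) (pB y) → q = mv i₀ (i' p) (pB y) := by
    intro q p y h1 h2 h3
    unfold mv at h3 ⊢
    split_ifs at h3 ⊢ with h4
    · exfalso
      rw [h3] at h1 h2
      have h5 : i p = 0 := by
        have : i p + 1 ≤ 1 := h1
        omega
      exact h2 (by rw [h5])
    · exact h3
  rcases u with a | ⟨p, y⟩ <;> rcases v with b | ⟨p', y'⟩
  · exact h
  · exact key _ _ _ (hA a) (hA' a) h
  · exact (key _ _ _ (hA b) (hA' b) h.symm).symm
  · change mv i₀ (i p) (pB y) = mv i₀ (i p') (pB y') at h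
    change mv i₀ (i' p) (pB y) = mv i₀ (i' p') (pB y')
    by_cases hy : pB y = (i₀, 1)
    · by_cases hy' : pB y' = (i₀, 1)
      · unfold mv at h ⊢
        rw [if_pos hy, if_pos hy'] at h ⊢
        have h1 : i p = i p' := by
          have := congrArg Prod.snd h
          simpa using this
        rw [hi.injective h1]
      · have e : ∀ j, mv i₀ j (pB y') = pB y' := fun j => if_neg hy'
        rw [e] at h ⊢
        exact (key _ _ _ (hB y') hy' h.symm).symm
    · have e : ∀ j, mv i₀ j (pB y) = pB y := fun j => if_neg hy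
      rw [e] at h ⊢
      by_cases hy' : pB y' = (i₀, 1)
      · exact key _ _ _ (hB y) hy h
      · have e' : ∀ j, mv i₀ j (pB y') = pB y' := fun j => if_neg hy'
        rw [e'] at h ⊢
        exact h

/-- the first formula: `‖x x* - 1‖` -/
noncomputable def f1 : Fm 1 :=
  Fm.nrm (Tm.add (Tm.mul (Tm.var 0) (Tm.adj (Tm.var 0))) (Tm.scal (-1) Tm.one))

/-- the second formula: `‖x a - b x‖` -/
noncomputable def f2 : Fm 3 :=
  Fm.nrm (Tm.add (Tm.mul (Tm.var 0) (Tm.var 1)) (Tm.scal (-1) (Tm.mul (Tm.var 2) (Tm.var 0))))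

theorem f1_val (T : TVN) (x : Fin 1 → T.E) : f1.val (str T) x = T.norm2 (x 0 * star (x 0) - 1) := by
  show T.norm2 (x 0 * star (x 0) + (-1 : ℂ) • (1 : T.E)) = _
  rw [neg_one_smul, sub_eq_add_neg]

theorem f2_val (T : TVN) (x : Fin 3 → T.E) :
    f2.val (str T) x = T.norm2 (x 0 * x 1 - x 2 * x 0) := by
  show T.norm2 (x 0 * x 1 + (-1 : ℂ) • (x 2 * x 0)) = _
  rw [neg_one_smul, sub_eq_add_neg]

/-- the estimate -/
theorem PSys.estimate (h : PSys T W) {p q : ι} (hpq : p ≠ q) (z a : T.E) (hz : T.opNorm z ≤ 1)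
    (h1 : T.norm2 (z * star z - 1) < 1 / 10) (h2 : T.norm2 (z * a - zz W p * z) < 1 / 10)
    (h3 : T.norm2 (z * a - zz W q * z) < 1 / 10) : False := by
  set d := zz W p - zz W q with hd
  have e1 : d * z = (z * a - zz W q * z) - (z * a - zz W p * z) := by
    rw [hd, sub_mul]; abel
  have h4 : T.norm2 (d * z) ≤ 1 / 5 := by
    rw [e1]
    refine (T.trAlg.n2_sub_le _ _).trans ?_
    have h5 : T.norm2 (z * a - zz W q * z) + T.norm2 (z * a - zz W p * z) ≤ 1 / 5 := by linarith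
    exact h5
  have hdn : T.opNorm d ≤ 2 := by
    rw [hd, sub_eq_add_neg]
    refine (op_add T _ _).trans ?_
    have h5 : T.opNorm (-zz W q) = T.opNorm (zz W q) := by
      have := op_smul T (-1) (zz W q)
      rw [neg_one_smul, norm_neg, norm_one, one_mul] at this
      exact this
    rw [h5]
    linarith [h.op_zz p, h.op_zz q]
  have e2 : d = d * z * star z - d * (z * star z - 1) := by
    rw [mul_sub, mul_one, mul_assoc]; abel
  have h6 : T.norm2 d ≤ T.norm2 (d * z * star z) + T.norm2 (d * (z * star z - 1)) := by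
    conv_lhs => rw [e2]
    exact T.trAlg.n2_sub_le _ _
  have h7 := norm2_mul_right T (d * z) (star z)
  rw [op_star] at h7
  have h8 := norm2_mul_left T d (z * star z - 1)
  have h9 := norm2_nonneg T (d * z)
  have h10 := norm2_nonneg T (z * star z - 1)
  have h11 := op_nonneg T z
  have h12 := op_nonneg T d
  have h13 := h.dist_zz hpq
  rw [← hd] at h13
  have h14 := norm2_nonneg T d
  have h15 : T.norm2 d ≤ 2 / 5 := by nlinarith
  nlinarith

end

theorem PSys.divides {M : TVN} {W : VI (ℝ × ℕ) → M.E} (h : PSys M W)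
    (p : LF (Fin 1 ⊕ BB W) → ℝ)
    (hp1 : ∀ v : Fin 1 → Fin 1 ⊕ BB W, v 0 = Sum.inl 0 → p ⟨1, f1, v⟩ = 0)
    (hp2 : ∀ (v : Fin 3 → Fin 1 ⊕ BB W) (i : ℝ) (a b : BB W), v 0 = Sum.inl 0 → v 1 = Sum.inr a →
      v 2 = Sum.inr b → a.1 = zz W (i, 0) → b.1 = zz W (i, 1) → p ⟨3, f2, v⟩ = 0)
    (A : Set M.E) (hAB : A ⊆ BB W) (hA : SepSet (str M) A) : Divides (str M) (BB W) 1 1 p A := by
  classical
  -- `A` is countable
  have hAc : A.Countable := by
    obtain ⟨D, hDA, hD, hd⟩ := hA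
    refine hD.mono ?_
    intro x hx
    obtain ⟨y, hy, hxy⟩ := hd x hx 1 one_pos
    obtain ⟨q, -, rfl⟩ := hAB hx
    obtain ⟨q', -, rfl⟩ := hAB (hDA hy)
    by_cases hq : q = q'
    · rw [hq]; exact hy
    · exfalso
      have h1 := h.dist_zz hq
      have h2 := norm2_nonneg M (zz W q - zz W q')
      have e : (str M).sub (zz W q) (zz W q') = zz W q - zz W q' := sub_eq M _ _
      have hxy' : M.norm2 (zz W q - zz W q') < 1 := by
        rw [← e]
        exact hxy
      nlinarith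
  obtain ⟨i₀, hi₀⟩ : ∃ i : ℝ, zz W (i, 1) ∉ A := by
    by_contra hne
    push Not at hne
    have hinj : Function.Injective fun i : ℝ => zz W (i, 1) := by
      intro i k hik
      exact congrArg Prod.fst (h.zz_inj hik)
    have h1 := hAc.preimage hinj
    have h2 : (fun i : ℝ => zz W (i, 1)) ⁻¹' A = Set.univ := by
      ext i
      exact ⟨fun _ => trivial, fun _ => hne i⟩
    rw [h2, Set.countable_univ_iff] at h1
    exact not_countable h1
  -- positions
  set pz : M.E → ℝ × ℕ := Function.invFun (zz W) with hpz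
  have hpzz : ∀ q, pz (zz W q) = q := Function.leftInverse_invFun h.zz_inj
  have hzpz : ∀ y ∈ BB W, zz W (pz y) = y := by
    rintro _ ⟨q, -, rfl⟩
    rw [hpzz]
  have hpz1 : ∀ y ∈ BB W, (pz y).2 ≤ 1 := by
    rintro _ ⟨q, hq, rfl⟩
    rw [hpzz]
    exact hq
  refine ⟨str M, id, isTVN M, fun ψ => rfl, fun j b => zz W (mv i₀ j (pz b.1)), ?_, ?_, ?_⟩
  · intro b
    show zz W (mv i₀ 0 (pz b.1)) = b.1
    rw [mv_zero, hzpz _ b.2]
  · -- indiscernible
    intro k i i' hi hi' ψ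
    have hAA : ∀ a : (id '' A : Set M.E), a.1 ∈ A := by
      rintro ⟨_, x, hx, rfl⟩
      exact hx
    have hval : ∀ i : Fin k → ℕ, ψ.val (str M) (Sum.elim Subtype.val fun q =>
        zz W (mv i₀ (i q.1) (pz q.2.1))) = ψ.fm.val (str M) (fun t =>
          zz W (PP i₀ (fun a : (id '' A : Set M.E) => pz a.1) (fun b : BB W => pz b.1) i
            (ψ.v t))) := by
      intro i
      show ψ.fm.val (str M) _ = ψ.fm.val (str M) _
      congr 1
      funext t
      rcases ψ.v t with a | q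
      · show a.1 = zz W (pz a.1)
        rw [hzpz _ (hAB (hAA a))]
      · rfl
    refine (hval i).trans (Eq.trans ?_ (hval i').symm)
    refine h.val_zz h ψ.fm _ _ fun s t => ?_
    have hA1 : ∀ a : (id '' A : Set M.E), (pz a.1).2 ≤ 1 := fun a => hpz1 _ (hAB (hAA a))
    have hA2 : ∀ a : (id '' A : Set M.E), pz a.1 ≠ (i₀, 1) := by
      intro a h0
      apply hi₀
      rw [← h0, hzpz _ (hAB (hAA a))]
      exact hAA a
    have hB1 : ∀ b : BB W, (pz b.1).2 ≤ 1 := fun b => hpz1 _ b.2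
    exact ⟨PP_imp i₀ _ _ hA1 hA2 hB1 i i' hi _ _, PP_imp i₀ _ _ hA1 hA2 hB1 i' i hi' _ _⟩
  · -- inconsistent
    intro hc
    have ha : zz W (i₀, 0) ∈ BB W := ⟨(i₀, 0), Nat.zero_le 1, rfl⟩
    have hb : zz W (i₀, 1) ∈ BB W := ⟨(i₀, 1), le_refl 1, rfl⟩
    set a : BB W := ⟨zz W (i₀, 0), ha⟩ with hadef
    set b : BB W := ⟨zz W (i₀, 1), hb⟩ with hbdef
    set v1 : Fin 1 → Fin 1 ⊕ BB W := fun _ => Sum.inl 0 with hv1
    set v2 : Fin 3 → Fin 1 ⊕ BB W := ![Sum.inl 0, Sum.inr a, Sum.inr b] with hv2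
    obtain ⟨y, hy⟩ := hc {(0, ⟨1, f1, v1⟩), (0, ⟨3, f2, v2⟩), (1, ⟨3, f2, v2⟩)} (1 / 10) (by norm_num)
    have y1 := hy (0, ⟨1, f1, v1⟩) (by simp)
    have y2 := hy (0, ⟨3, f2, v2⟩) (by simp)
    have y3 := hy (1, ⟨3, f2, v2⟩) (by simp)
    have e1 : p ⟨1, f1, v1⟩ = 0 := hp1 v1 rfl
    have e2 : p ⟨3, f2, v2⟩ = 0 := hp2 v2 i₀ a b rfl rfl rfl rfl rfl
    have hm0 : ∀ j, mv i₀ j (pz (zz W (i₀, 0))) = (i₀, 0) := by
      intro j
      rw [hpzz]
      unfold mv
      rw [if_neg]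
      intro h0
      exact absurd (congrArg Prod.snd h0) (by norm_num)
    have hm1 : ∀ j, mv i₀ j (pz (zz W (i₀, 1))) = (i₀, j + 1) := by
      intro j
      rw [hpzz]
      unfold mv
      rw [if_pos rfl]
    let z : M.E := (y 0).1
    have hz : M.opNorm z ≤ 1 := by
      have h5 : M.opNorm z ≤ ((1 : ℕ) : ℝ) := (y 0).2
      rwa [Nat.cast_one] at h5
    have k1' : |M.norm2 (z * star z + (-1 : ℂ) • (1 : M.E)) - p ⟨1, f1, v1⟩| < 1 / 10 := y1
    have k2' : |M.norm2 (z * zz W (mv i₀ 0 (pz (zz W (i₀, 0)))) +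
        (-1 : ℂ) • (zz W (mv i₀ 0 (pz (zz W (i₀, 1)))) * z)) - p ⟨3, f2, v2⟩| < 1 / 10 := y2
    have k3' : |M.norm2 (z * zz W (mv i₀ 1 (pz (zz W (i₀, 0)))) +
        (-1 : ℂ) • (zz W (mv i₀ 1 (pz (zz W (i₀, 1)))) * z)) - p ⟨3, f2, v2⟩| < 1 / 10 := y3
    clear_value z
    rw [e1, sub_zero, neg_one_smul, ← sub_eq_add_neg] at k1'
    rw [e2, sub_zero, neg_one_smul, ← sub_eq_add_neg, hm0, hm1] at k2' k3'
    exact h.estimate (p := (i₀, 0 + 1)) (q := (i₀, 1 + 1)) (fun h0 =>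
      absurd (congrArg Prod.snd h0) (by norm_num)) z (zz W (i₀, 0)) hz
      ((le_abs_self _).trans_lt k1') ((le_abs_self _).trans_lt k2') ((le_abs_self _).trans_lt k3')

theorem PSys.not_simple {M : TVN} {W : VI (ℝ × ℕ) → M.E} (h : PSys M W) (R : Str)
    (hel : (str M).ElemEq R) : ¬ IsSimple R := by
  classical
  intro hs
  choose x h1 h2 h3 h4 using fun S : Finset ℝ => h.exists_prod S
  have hop : ∀ S, M.opNorm (x S) ≤ 1 := fun S => op_unitary M (h1 S)
  set U : Ultrafilter (Finset ℝ) := Ultrafilter.of atTop with hU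
  let val : LF (Fin 1 ⊕ BB W) → Finset ℝ → ℝ := fun ψ S =>
    ψ.val (str M) (Sum.elim (fun _ => x S) Subtype.val)
  have hlim : ∀ ψ, ∃ l, Tendsto (val ψ) U (𝓝 l) := by
    intro ψ
    obtain ⟨C, hC⟩ := (good ψ.fm).1 1 zero_le_one
    have hb : ∀ S, val ψ S ∈ Set.Icc (-C) C := by
      intro S
      refine abs_le.1 (hC M _ fun k => ?_)
      rcases ψ.v k with a | b
      · exact hop S
      · obtain ⟨q, -, hq⟩ := b.2
        show M.opNorm b.1 ≤ 1
        rw [← hq]
        exact h.op_zz q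
    obtain ⟨l, -, hl⟩ := (isCompact_Icc (a := -C) (b := C)).ultrafilter_le_nhds (U.map (val ψ))
      (by
        rw [le_principal_iff]
        exact Filter.mem_map.2 (Filter.univ_mem' hb))
    exact ⟨l, hl⟩
  choose p hp using hlim
  have htype : IsType (str M) (BB W) 1 1 p := by
    intro S₀ ε hε
    have h5 : ∀ᶠ S in (U : Filter (Finset ℝ)), ∀ ψ ∈ S₀, |val ψ S - p ψ| < ε := by
      rw [Filter.eventually_all_finset]
      intro ψ _
      exact (Metric.tendsto_nhds.1 (hp ψ) ε hε).mono fun S hS => by rwa [Real.dist_eq] at hS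
    obtain ⟨S, hS⟩ := h5.exists
    refine ⟨fun _ => ⟨x S, ?_⟩, hS⟩
    rw [Nat.cast_one]
    exact hop S
  obtain ⟨A, hAB, hA, hdiv⟩ := hs (str M) (isTVN M) hel (BB W) 1 1 p htype
  refine hdiv (h.divides p ?_ ?_ A hAB hA)
  · intro v hv
    have h5 : ∀ S, val ⟨1, f1, v⟩ S = 0 := by
      intro S
      have e := f1_val M (fun k => Sum.elim (fun _ => x S) Subtype.val (v k))
      refine e.trans ?_
      simp only [hv, Sum.elim_inl]
      rw [h2, sub_self, norm2_zero]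
    have h6 := hp ⟨1, f1, v⟩
    have h7 : val ⟨1, f1, v⟩ = fun _ => 0 := funext h5
    rw [h7] at h6
    exact (tendsto_nhds_unique h6 tendsto_const_nhds)
  · intro v i a b hv0 hv1 hv2 ha hb
    have h5 : ∀ᶠ S in (U : Filter (Finset ℝ)), val ⟨3, f2, v⟩ S = 0 := by
      have h6 : ∀ᶠ S in (atTop : Filter (Finset ℝ)), i ∈ S := by
        filter_upwards [eventually_ge_atTop ({i} : Finset ℝ)] with S hS
        exact hS (Finset.mem_singleton_self i)
      have h8 : ∀ᶠ S in (U : Filter (Finset ℝ)), i ∈ S := (Ultrafilter.of_le atTop) h6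
      refine h8.mono fun S hS => ?_
      have e := f2_val M (fun k => Sum.elim (fun _ => x S) Subtype.val (v k))
      refine e.trans ?_
      simp only [hv0, hv1, hv2, Sum.elim_inl, Sum.elim_inr]
      rw [ha, hb, h3 S i hS, sub_self, norm2_zero]
    have h6 := hp ⟨3, f2, v⟩
    have h7 : Tendsto (val ⟨3, f2, v⟩) U (𝓝 0) :=
      (tendsto_congr' h5).2 tendsto_const_nhds
    exact tendsto_nhds_unique h6 h7

/-- The theory of the hyperfinite factor is not simple. -/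
theorem not_simple (R : Str) (hR : R.IsHyperfinite) : ¬ IsSimple R := by
  obtain ⟨R', rfl⟩ := exists_tvn R hR.1
  obtain ⟨W', hW'⟩ := hyp_psys R' (hyp_of R' hR)
  exact (WI_psys (ℝ × ℕ)).not_simple _ ((WI_psys (ℝ × ℕ)).elemEq hW')

end Pool.Agent.N625.SI
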