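import Pool.Agent.N625.SI.Pau
import Pool.Agent.W403.EP.TWB

/-!
The tensor product of an arbitrary family of copies of the `2 × 2` matrices; Pauli systems in the
hyperfinite factor; elementary equivalence.
-/

set_option autoImplicit false

open scoped ComplexOrder InnerProductSpace

namespace Pool.Agent.N625.SI

open Pool.Agent.H504R3 (TVN M2 Cmm Ws Ws_zero Ws_mul Ws_star Ws_trace adjoin_le)
open Pool.Agent.H504R3.S
open Pool.Agent.Helper278 (TrAlg n2 n2_nonneg)
open Pool.Agent.Helper436.SM (sg sg_add sg_mul_self norm_sg star_sg VV bf)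
open Pool.Agent.R970.SI
open Pool.Agent.W403.EP (Bi TK LK LK_one LK_mul star_LK tr_LK dense_K opK opK_mem TK_norm2 Lo)

/-- the group -/
abbrev GI' (ι : Type) : Type := Multiplicative (VI ι)

/-- the cocycle -/
noncomputable def bG (ι : Type) : Bi (GI' ι) where
  b x y := bI x.toAdd y.toAdd
  left _ _ _ := bI_add_left _ _ _
  right _ _ _ := bI_add_right _ _ _

/-- the algebra -/
noncomputable def MI (ι : Type) : TVN := TK (bG ι) ((⊤ : Subgroup (GI' ι)) : Set (GI' ι))

/-- the Pauli strings -/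
noncomputable def WI (ι : Type) (v : VI ι) : (MI ι).E :=
  LK (bG ι) (Multiplicative.ofAdd v) (Set.mem_univ _)

theorem WI_psys (ι : Type) : PSys (MI ι) (WI ι) where
  zero := LK_one (bG ι) _
  mul v w := LK_mul (bG ι) (K := ((⊤ : Subgroup (GI' ι)) : Set (GI' ι))) (Multiplicative.ofAdd v)
    (Multiplicative.ofAdd w) (Set.mem_univ _) (Set.mem_univ _) (Set.mem_univ _)
  adj v := by
    have h := star_LK (bG ι) (K := ((⊤ : Subgroup (GI' ι)) : Set (GI' ι)))
      (Multiplicative.ofAdd v) (Set.mem_univ _) (Set.mem_univ _)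
    refine h.trans ?_
    have e : (Multiplicative.ofAdd v)⁻¹ = Multiplicative.ofAdd v := by
      show Multiplicative.ofAdd (-v) = Multiplicative.ofAdd v
      rw [neg_eq_of_add_eq_zero_left (vi_add_self v)]
    refine congrArg (fun z : (MI ι).E => sg (bI v v) • z) ?_
    exact Subtype.ext (congrArg (Lo (bG ι)) e)
  trace v hv := by
    classical
    refine (tr_LK (bG ι) (K := ((⊤ : Subgroup (GI' ι)) : Set (GI' ι)))
      (Multiplicative.ofAdd v) (Set.mem_univ _)).trans (if_neg ?_)
    intro h0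
    exact hv h0
  dense x ε hε := by
    obtain ⟨y, hy, hxy⟩ := dense_K (bG ι) ⊤ (opK (bG ι) x) (opK_mem (bG ι) x) ε hε
    have key : ∀ y ∈ Submodule.span ℂ (Lo (bG ι) '' ((⊤ : Subgroup (GI' ι)) : Set (GI' ι))),
        ∃ y' ∈ Submodule.span ℂ (Set.range (WI ι)), opK (bG ι) y' = y := by
      intro y hy
      induction hy using Submodule.span_induction with
      | mem y hy =>
        obtain ⟨g, hg, rfl⟩ := hy
        exact ⟨WI ι g.toAdd, Submodule.subset_span ⟨_, rfl⟩, rfl⟩
      | zero => exact ⟨0, zero_mem _, rfl⟩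
      | add a b _ _ ha hb =>
        obtain ⟨a', ha, rfl⟩ := ha
        obtain ⟨b', hb, rfl⟩ := hb
        exact ⟨a' + b', add_mem ha hb, rfl⟩
      | smul c a _ ha =>
        obtain ⟨a', ha, rfl⟩ := ha
        exact ⟨c • a', Submodule.smul_mem _ _ ha, rfl⟩
    obtain ⟨y', hy', rfl⟩ := key y hy
    refine ⟨y', hy', ?_⟩
    have h := TK_norm2 (bG ι) (K := ((⊤ : Subgroup (GI' ι)) : Set (GI' ι))) (x - y')
    refine lt_of_eq_of_lt h ?_
    exact hxy

/-- a Pauli system of the hyperfinite factor -/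
theorem hyp_psys (R : TVN) (hR : R.IsHyperfinite) : ∃ W : VI ℕ → R.E, PSys R W := by
  obtain ⟨j, hc, hd⟩ := hR
  refine ⟨Ws j, Ws_zero, Ws_mul hc, Ws_star hc, fun v hv => ?_, fun x ε hε => ?_⟩
  · exact (Ws_trace hc R.trAlg v).trans (if_neg hv)
  · obtain ⟨y, hy, hxy⟩ := hd x ε hε
    obtain ⟨F, c, rfl⟩ := adjoin_le hc y hy
    exact ⟨_, Submodule.sum_mem _ fun t _ => Submodule.smul_mem _ _
      (Submodule.subset_span ⟨t, rfl⟩), hxy⟩

/-- Tracial von Neumann algebras with Pauli systems are elementarily equivalent. -/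
theorem PSys.elemEq {T T' : TVN} {ι ι' : Type} [Infinite ι] [Infinite ι'] {W : VI ι → T.E}
    {W' : VI ι' → T'.E} (h : PSys T W) (h' : PSys T' W') : (str T).ElemEq (str T') := by
  intro φ
  have h1 := (psys_bf h h').val_eq φ (gr W W' (Empty.elim : Empty → ι) (Empty.elim : Empty → ι'))
    ⟨Empty, inferInstance, _, _, fun a => a.elim, fun a => a.elim, rfl⟩ Fin.elim0
    (fun i => i.elim0)
  have e1 : (fun i => ((Fin.elim0 : Fin 0 → T.E × T'.E) i).1) = (Fin.elim0 : Fin 0 → T.E) :=
    funext fun i => i.elim0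
  have e2 : (fun i => ((Fin.elim0 : Fin 0 → T.E × T'.E) i).2) = (Fin.elim0 : Fin 0 → T'.E) :=
    funext fun i => i.elim0
  rw [e1, e2] at h1
  exact h1

/-- the Pauli matrix `Z` of the copy `q` -/
noncomputable def zz {T : TVN} {ι : Type} (W : VI ι → T.E) (q : ι) : T.E :=
  W (Finsupp.single q (0, 1))

/-- Formulas have the same value at tuples of Pauli matrices of the same equality type. -/
theorem PSys.val_zz {T T' : TVN} {ι ι' : Type} [Infinite ι] [Infinite ι'] {W : VI ι → T.E}
    {W' : VI ι' → T'.E} (h : PSys T W) (h' : PSys T' W') {n : ℕ} (φ : Fm n) (q : Fin n → ι)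
    (q' : Fin n → ι') (hq : ∀ s t, q s = q t ↔ q' s = q' t) :
    φ.val (str T) (fun t => zz W (q t)) = φ.val (str T') (fun t => zz W' (q' t)) := by
  set g : Set.range q → ι := Subtype.val with hg
  set g' : Set.range q → ι' := fun x => q' (Classical.choose x.2) with hg'
  have hgq : ∀ t, g' ⟨q t, t, rfl⟩ = q' t := by
    intro t
    have h1 : q (Classical.choose (⟨t, rfl⟩ : ∃ s, q s = q t)) = q t :=
      Classical.choose_spec (⟨t, rfl⟩ : ∃ s, q s = q t)
    exact (hq _ _).1 h1
  have hgi : Function.Injective g := Subtype.val_injective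
  have hgi' : Function.Injective g' := by
    rintro ⟨_, s, rfl⟩ ⟨_, t, rfl⟩ hst
    rw [hgq, hgq] at hst
    exact Subtype.ext ((hq s t).2 hst)
  have h1 := (psys_bf h h').val_eq φ (gr W W' g g') ⟨_, inferInstance, g, g', hgi, hgi', rfl⟩
    (fun t => (zz W (q t), zz W' (q' t))) (fun t => by
      refine Submodule.subset_span ⟨Finsupp.single ⟨q t, t, rfl⟩ (0, 1), ?_⟩
      show (W _, W' _) = (zz W (q t), zz W' (q' t))
      rw [Finsupp.mapDomain_single, Finsupp.mapDomain_single, hgq]
      rfl)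
  exact h1

end Pool.Agent.N625.SI
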