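import Mathlib
import Pool.Agent.H504R3.Tens

/-!
The norm of an element of a tracial von Neumann algebra is bounded by its moments.
-/

set_option autoImplicit false

open scoped ComplexOrder InnerProductSpace

namespace Pool.Agent.N625.SI

open Pool.Agent.H504R3 (TVN)
open Pool.Agent.H467F (TW)

theorem spec_le {A : Type} [CStarAlgebra A] {p : A} (hp : IsSelfAdjoint p) {x : ℝ}
    (hx : x ∈ spectrum ℝ p) : |x| ≤ ‖p‖ := by
  have h := norm_apply_le_norm_cfc (𝕜 := ℝ) (id : ℝ → ℝ) p hx continuousOn_id hp
  rw [cfc_id ℝ p hp] at h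
  simpa using h

theorem norm_le_of_moments {A : Type} [CStarAlgebra A] {τ : A →ₗ[ℂ] ℂ} (h : TW τ) (a : A)
    (c : ℝ) (hc : 0 ≤ c) (hm : ∀ m : ℕ, (τ ((star a * a) ^ m)).re ≤ c ^ (2 * m)) : ‖a‖ ≤ c := by
  set p := star a * a with hp
  have hps : IsSelfAdjoint p := IsSelfAdjoint.star_mul_self a
  have key : ∀ d : ℝ, c ^ 2 < d → ‖p‖ ≤ d := by
    intro d hd
    have hd0 : 0 < d := lt_of_le_of_lt (sq_nonneg c) hd
    let f : ℝ → ℝ := fun x => max (x - d) 0
    have hf : Continuous f := (continuous_id.sub continuous_const).max continuous_const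
    let g : ℝ → ℝ := fun x => Real.sqrt (f x)
    have hg : Continuous g := hf.sqrt
    have hf0 : ∀ x, 0 ≤ f x := fun x => le_max_right _ _
    have hgg : (fun x => g x * g x) = f := by
      funext x
      exact Real.mul_self_sqrt (hf0 x)
    have h3 : star (cfc g p) * cfc g p = cfc f p := by
      have hsa : IsSelfAdjoint (cfc g p) := cfc_predicate g p
      rw [hsa.star_eq, ← cfc_mul g g p hg.continuousOn hg.continuousOn, hgg]
    -- the trace of `f p`
    have h4 : ∀ m : ℕ, (τ (cfc f p)).re ≤ c ^ 2 * (c ^ 2 / d) ^ m := by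
      intro m
      let q : ℝ → ℝ := fun x => x * (x / d) ^ m
      have hq : Continuous q := by fun_prop
      let k : ℝ → ℝ := fun x => Real.sqrt (q x - f x)
      have hk : Continuous k := (hq.sub hf).sqrt
      have hkk : Set.EqOn (fun x => k x * k x) (fun x => q x - f x) (spectrum ℝ p) := by
        intro x hx
        have hx0 : 0 ≤ x := spectrum_star_mul_self_nonneg x hx
        refine Real.mul_self_sqrt ?_
        show 0 ≤ x * (x / d) ^ m - max (x - d) 0
        rcases le_total x d with hxd | hxd
        · rw [max_eq_right (by linarith), sub_zero]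
          positivity
        · rw [max_eq_left (by linarith)]
          have h5 : 1 ≤ (x / d) ^ m := one_le_pow₀ ((one_le_div hd0).2 hxd)
          nlinarith
      have h5 : star (cfc k p) * cfc k p = cfc q p - cfc f p := by
        have hsa : IsSelfAdjoint (cfc k p) := cfc_predicate k p
        rw [hsa.star_eq, ← cfc_mul k k p hk.continuousOn hk.continuousOn, cfc_congr hkk,
          cfc_sub q f p hq.continuousOn hf.continuousOn]
      have h6 := h.re_nonneg (cfc k p)
      rw [h5, map_sub, Complex.sub_re] at h6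
      have h7 : cfc q p = ((1 / d ^ m : ℝ) : ℂ) • p ^ (m + 1) := by
        have e : q = fun x => (1 / d ^ m) • x ^ (m + 1) := by
          funext x
          show x * (x / d) ^ m = (1 / d ^ m) * x ^ (m + 1)
          rw [div_pow, pow_succ]
          field_simp
        rw [e, cfc_smul (1 / d ^ m) (fun x : ℝ => x ^ (m + 1)) p (by fun_prop),
          cfc_pow_id p (m + 1) hps, Complex.coe_smul]
      have h8 : (τ (cfc q p)).re ≤ c ^ 2 * (c ^ 2 / d) ^ m := by
        rw [h7, map_smul, smul_eq_mul, Complex.re_ofReal_mul]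
        have h9 := hm (m + 1)
        have h10 : (0 : ℝ) ≤ 1 / d ^ m := by positivity
        calc 1 / d ^ m * (τ (p ^ (m + 1))).re ≤ 1 / d ^ m * c ^ (2 * (m + 1)) :=
              mul_le_mul_of_nonneg_left h9 h10
          _ = c ^ 2 * (c ^ 2 / d) ^ m := by
            rw [div_pow, ← pow_mul]
            field_simp
            ring
      linarith
    have h11 : (τ (cfc f p)).re ≤ 0 := by
      have hlim : Filter.Tendsto (fun m : ℕ => c ^ 2 * (c ^ 2 / d) ^ m) Filter.atTop
          (nhds (c ^ 2 * 0)) := by
        refine Filter.Tendsto.const_mul _ (tendsto_pow_atTop_nhds_zero_of_lt_one (by positivity) ?_)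
        rw [div_lt_one hd0]
        exact hd
      rw [mul_zero] at hlim
      exact ge_of_tendsto' hlim h4
    have h12 : τ (star (cfc g p) * cfc g p) = 0 := by
      have h13 := h.nonneg (cfc g p)
      rw [Complex.nonneg_iff] at h13
      rw [h3] at h13 ⊢
      exact Complex.ext (le_antisymm h11 h13.1) h13.2.symm
    have h14 : cfc g p = 0 := h.faithful _ h12
    have h6 : ‖cfc (id : ℝ → ℝ) p‖ ≤ d := by
      refine norm_cfc_le hd0.le fun x hx => ?_
      have hx0 : 0 ≤ x := spectrum_star_mul_self_nonneg x hx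
      have h7 := norm_apply_le_norm_cfc (𝕜 := ℝ) g p hx hg.continuousOn hps
      rw [h14, norm_zero] at h7
      have h8 : g x = 0 := norm_le_zero_iff.1 h7
      have h9 : f x = 0 := by
        rw [← hgg]
        simp only [h8, mul_zero]
      have h10 : x - d ≤ 0 := by
        rw [← h9]
        exact le_max_left _ _
      rw [Real.norm_eq_abs, id, abs_of_nonneg hx0]
      linarith
    rwa [cfc_id ℝ p hps] at h6
  have h1 : ‖p‖ ≤ c ^ 2 := le_of_forall_gt_imp_ge_of_dense fun d hd => key d hd
  rw [hp, CStarRing.norm_star_mul_self] at h1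
  nlinarith [norm_nonneg a]

/-- The norm is bounded by the moments. -/
theorem opNorm_le_of_moments (T : TVN) (x : T.E) (c : ℝ) (hc : 0 ≤ c)
    (hm : ∀ m : ℕ, (T.τ ((star x * x) ^ m)).re ≤ c ^ (2 * m)) : T.opNorm x ≤ c :=
  norm_le_of_moments (A := Pool.Agent.H467F.Elt T.N) (τ := T.τ) T.tw x c hc hm

end Pool.Agent.N625.SI
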