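import Pool.Agent.N625.SI.BF
import Pool.Agent.H504R3.PauliM

/-!
Pauli systems with an arbitrary index set, and back-and-forth systems between them.
-/

set_option autoImplicit false

open scoped ComplexOrder InnerProductSpace

namespace Pool.Agent.N625.SI

open Pool.Agent.H504R3 (TVN)
open Pool.Agent.H504R3.S
open Pool.Agent.Helper278 (TrAlg n2 n2_nonneg)
open Pool.Agent.Helper436.SM (sg sg_add sg_mul_self norm_sg star_sg)
open Pool.Agent.R970.SI

/-- Pauli strings -/
abbrev VI (ι : Type) : Type := ι →₀ (ZMod 2 × ZMod 2)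

/-- the bilinear form -/
def bI {ι : Type} (v w : VI ι) : ZMod 2 := v.sum fun i a => a.2 * (w i).1

theorem bI_add_left {ι : Type} (u v w : VI ι) : bI (u + v) w = bI u w + bI v w := by
  unfold bI
  classical
  refine Finsupp.sum_add_index' (fun i => ?_) (fun i a b => ?_)
  · simp
  · rw [Prod.snd_add, add_mul]

theorem bI_add_right {ι : Type} (u v w : VI ι) : bI u (v + w) = bI u v + bI u w := by
  unfold bI Finsupp.sum
  rw [← Finset.sum_add_distrib]
  refine Finset.sum_congr rfl (fun i _ => ?_)
  show (u i).2 * ((v + w) i).1 = (u i).2 * (v i).1 + (u i).2 * (w i).1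
  rw [Finsupp.add_apply, Prod.fst_add, mul_add]

theorem vi_add_self {ι : Type} (v : VI ι) : v + v = 0 := by
  ext i
  · simp [CharTwo.add_self_eq_zero]
  · simp [CharTwo.add_self_eq_zero]

theorem bI_map {κ ι : Type} (g : κ → ι) (hg : Function.Injective g) (v w : VI κ) :
    bI (v.mapDomain g) (w.mapDomain g) = bI v w := by
  unfold bI
  rw [Finsupp.sum_mapDomain_index_inj hg]
  refine Finsupp.sum_congr fun i _ => ?_
  rw [Finsupp.mapDomain_apply hg]

/-- A Pauli system which generates a tracial von Neumann algebra. -/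
structure PSys (T : TVN) {ι : Type} (W : VI ι → T.E) : Prop where
  zero : W 0 = 1
  mul : ∀ v w, W v * W w = sg (bI v w) • W (v + w)
  adj : ∀ v, star (W v) = sg (bI v v) • W v
  trace : ∀ v, v ≠ 0 → T.τ (W v) = 0
  dense : ∀ (x : T.E) (ε : ℝ), 0 < ε →
    ∃ y ∈ Submodule.span ℂ (Set.range W), T.norm2 (x - y) < ε

variable {T : TVN} {ι : Type} {W : VI ι → T.E}

theorem PSys.adj_mul (h : PSys T W) (v w : VI ι) :
    star (W v) * W w = (sg (bI v v) * sg (bI v w)) • W (v + w) := by
  rw [h.adj, smul_mul_assoc, h.mul, smul_smul]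

theorem PSys.oa (h : PSys T W) {κ : Type} (g : κ → ι) (hg : Function.Injective g) :
    OA (T := T) (fun v : VI κ => W (v.mapDomain g)) where
  same v := by
    rw [h.adj_mul, vi_add_self, sg_mul_self, one_smul, h.zero, T.map_one]
  ne v w hvw := by
    rw [h.adj_mul, ← Finsupp.mapDomain_add, map_smul, h.trace, smul_zero]
    intro h0
    have h1 : v + w = 0 := by
      have h2 : (v + w).mapDomain g = (0 : VI κ).mapDomain g := by
        rw [h0, Finsupp.mapDomain_zero]
      exact Finsupp.mapDomain_injective hg h2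
    apply hvw
    have h3 : v + w + w = w := by rw [h1, zero_add]
    rwa [add_assoc, vi_add_self, add_zero] at h3
  mul v w := by
    rw [h.mul, ← Finsupp.mapDomain_add]
    exact Submodule.smul_mem _ _ (Submodule.subset_span ⟨v + w, rfl⟩)
  star v := by
    rw [h.adj]
    exact Submodule.smul_mem _ _ (Submodule.subset_span ⟨v, rfl⟩)
  one := by
    rw [← h.zero]
    exact Submodule.subset_span ⟨0, by simp only [Finsupp.mapDomain_zero]⟩

variable {T' : TVN} {ι' : Type} {W' : VI ι' → T'.E}

/-- the graph of the partial isomorphism given by two families -/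
noncomputable def gr (W : VI ι → T.E) (W' : VI ι' → T'.E) {κ : Type} (g : κ → ι) (g' : κ → ι') :
    Submodule ℂ (T.E × T'.E) :=
  Submodule.span ℂ (Set.range fun v : VI κ => (W (v.mapDomain g), W' (v.mapDomain g')))

theorem gr_fst {κ : Type} {g : κ → ι} {g' : κ → ι'} {p : T.E × T'.E} (hp : p ∈ gr W W' g g') :
    p.1 ∈ Submodule.span ℂ (Set.range fun v : VI κ => W (v.mapDomain g)) := by
  unfold gr at hp
  induction hp using Submodule.span_induction with
  | mem x hx =>
    obtain ⟨v, rfl⟩ := hx
    exact Submodule.subset_span ⟨v, rfl⟩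
  | zero => exact zero_mem _
  | add a b _ _ ha hb => exact add_mem ha hb
  | smul r a _ ha => exact Submodule.smul_mem _ _ ha

theorem exists_gr {κ : Type} (g : κ → ι) (g' : κ → ι') {x : T.E}
    (hx : x ∈ Submodule.span ℂ (Set.range fun v : VI κ => W (v.mapDomain g))) :
    ∃ p ∈ gr W W' g g', p.1 = x := by
  induction hx using Submodule.span_induction with
  | mem x hx =>
    obtain ⟨v, rfl⟩ := hx
    exact ⟨_, Submodule.subset_span ⟨v, rfl⟩, rfl⟩
  | zero => exact ⟨0, zero_mem _, rfl⟩
  | add a b _ _ ha hb =>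
    obtain ⟨p, hp, rfl⟩ := ha
    obtain ⟨q, hq, rfl⟩ := hb
    exact ⟨p + q, add_mem hp hq, rfl⟩
  | smul r a _ ha =>
    obtain ⟨p, hp, rfl⟩ := ha
    exact ⟨r • p, Submodule.smul_mem _ _ hp, rfl⟩

theorem gr_swap {κ : Type} {g : κ → ι} {g' : κ → ι'} {p : T.E × T'.E} (hp : p ∈ gr W W' g g') :
    p.swap ∈ gr W' W g' g := by
  unfold gr at hp
  induction hp using Submodule.span_induction with
  | mem x hx =>
    obtain ⟨v, rfl⟩ := hx
    exact Submodule.subset_span ⟨v, rfl⟩
  | zero => exact zero_mem _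
  | add a b _ _ ha hb =>
    have := add_mem ha hb
    exact this
  | smul r a _ ha =>
    have := Submodule.smul_mem _ r ha
    exact this

theorem gr_mono {κ κ' : Type} {g : κ → ι} {g' : κ → ι'} {k : κ' → ι} {k' : κ' → ι'} (j : κ → κ')
    (h : ∀ i, k (j i) = g i) (h' : ∀ i, k' (j i) = g' i) :
    gr W W' g g' ≤ gr W W' k k' := by
  unfold gr
  refine Submodule.span_le.2 ?_
  rintro _ ⟨v, rfl⟩
  refine Submodule.subset_span ⟨v.mapDomain j, ?_⟩
  have e : k ∘ j = g := funext h
  have e' : k' ∘ j = g' := funext h'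
  simp only [← Finsupp.mapDomain_comp, e, e']

theorem gr_piso (h : PSys T W) (h' : PSys T' W') {κ : Type} {g : κ → ι} {g' : κ → ι'}
    (hg : Function.Injective g) (hg' : Function.Injective g') :
    PIso T T' (gr W W' g g' : Set (T.E × T'.E)) where
  one := Submodule.subset_span ⟨0, by simp only [Finsupp.mapDomain_zero, h.zero, h'.zero]⟩
  add p hp q hq := add_mem (S := Submodule ℂ (T.E × T'.E)) hp hq
  scal c p hp := Submodule.smul_mem (gr W W' g g') c hp
  mul p hp q hq := by
    have key : p * q ∈ gr W W' g g' := by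
      change p ∈ gr W W' g g' at hp
      change q ∈ gr W W' g g' at hq
      have hq' := hq
      unfold gr at hp hq
      induction hp using Submodule.span_induction with
      | mem x hx =>
        obtain ⟨v, rfl⟩ := hx
        clear hq'
        induction hq using Submodule.span_induction with
        | mem y hy =>
          obtain ⟨u, rfl⟩ := hy
          rw [Prod.mk_mul_mk, h.mul, h'.mul, bI_map g hg, bI_map g' hg', ← Finsupp.mapDomain_add,
            ← Finsupp.mapDomain_add, ← Prod.smul_mk]
          exact Submodule.smul_mem _ _ (Submodule.subset_span ⟨_, rfl⟩)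
        | zero => rw [mul_zero]; exact zero_mem _
        | add a b _ _ ha hb => rw [mul_add]; exact add_mem ha hb
        | smul r a _ ha => rw [mul_smul_comm]; exact Submodule.smul_mem _ _ ha
      | zero => rw [zero_mul]; exact zero_mem _
      | add a b _ _ ha hb => rw [add_mul]; exact add_mem ha hb
      | smul r a _ ha => rw [smul_mul_assoc]; exact Submodule.smul_mem _ _ ha
    exact key
  adj p hp := by
    have key : star p ∈ gr W W' g g' := by
      change p ∈ gr W W' g g' at hp
      unfold gr at hp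
      induction hp using Submodule.span_induction with
      | mem x hx =>
        obtain ⟨v, rfl⟩ := hx
        have e : star (W (v.mapDomain g), W' (v.mapDomain g')) =
            sg (bI v v) • (W (v.mapDomain g), W' (v.mapDomain g')) := by
          refine Prod.ext ?_ ?_
          · show star (W (v.mapDomain g)) = sg (bI v v) • W (v.mapDomain g)
            rw [h.adj, bI_map g hg]
          · show star (W' (v.mapDomain g')) = sg (bI v v) • W' (v.mapDomain g')
            rw [h'.adj, bI_map g' hg']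
        rw [e]
        exact Submodule.smul_mem _ _ (Submodule.subset_span ⟨_, rfl⟩)
      | zero => rw [star_zero]; exact zero_mem _
      | add a b _ _ ha hb => rw [star_add]; exact add_mem ha hb
      | smul r a _ ha =>
        have e : star (r • a) = star r • star a := Prod.ext (star_smul r a.1) (star_smul r a.2)
        rw [e]
        exact Submodule.smul_mem _ _ ha
    exact key
  tr p hp := by
    change p ∈ gr W W' g g' at hp
    unfold gr at hp
    induction hp using Submodule.span_induction with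
    | mem x hx =>
      obtain ⟨v, rfl⟩ := hx
      by_cases hv : v = 0
      · subst hv
        simp only [Finsupp.mapDomain_zero, h.zero, h'.zero, T.map_one, T'.map_one]
      · rw [h.trace, h'.trace]
        · intro h0
          exact hv (Finsupp.mapDomain_injective hg' (h0.trans Finsupp.mapDomain_zero.symm))
        · intro h0
          exact hv (Finsupp.mapDomain_injective hg (h0.trans Finsupp.mapDomain_zero.symm))
    | zero => show T.τ 0 = T'.τ 0; rw [map_zero, map_zero]
    | add a b _ _ ha hb =>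
      show T.τ (a.1 + b.1) = T'.τ (a.2 + b.2)
      rw [map_add, map_add, ha, hb]
    | smul r a _ ha =>
      show T.τ (r • a.1) = T'.τ (r • a.2)
      rw [map_smul, map_smul, ha]

/-- partial isomorphisms preserve the norm -/
theorem PIso.op_le {T1 T2 : TVN} {ρ : Set (T1.E × T2.E)} (h : PIso T1 T2 ρ) (p : T1.E × T2.E)
    (hp : p ∈ ρ) : T1.opNorm p.1 ≤ T2.opNorm p.2 := by
  refine opNorm_le_of_moments T1 _ _ (op_nonneg T2 _) fun m => ?_
  have h1 : ∀ m : ℕ, ((star p.1 * p.1) ^ m, (star p.2 * p.2) ^ m) ∈ ρ := by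
    intro m
    induction m with
    | zero => rw [pow_zero, pow_zero]; exact h.one
    | succ m ih =>
      rw [pow_succ, pow_succ]
      have h3 := h.mul _ (h.adj _ hp) _ hp
      have := h.mul _ ih _ h3
      exact this
  have h2 : T1.τ ((star p.1 * p.1) ^ m) = T2.τ ((star p.2 * p.2) ^ m) := h.tr _ (h1 m)
  rw [h2]
  refine (Complex.re_le_norm _).trans ((tau_le T2 _).trans ((norm2_le_op T2 _).trans ?_))
  clear h2
  induction m with
  | zero => rw [pow_zero, mul_zero, pow_zero]; exact op_one T2
  | succ m ih =>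
    rw [pow_succ]
    refine (op_mul T2 _ _).trans ?_
    have h3 : T2.opNorm (star p.2 * p.2) ≤ T2.opNorm p.2 ^ 2 := by
      refine (op_mul T2 _ _).trans ?_
      rw [op_star, sq]
    calc _ ≤ T2.opNorm p.2 ^ (2 * m) * T2.opNorm p.2 ^ 2 :=
          mul_le_mul ih h3 (op_nonneg T2 _) (pow_nonneg (op_nonneg T2 _) _)
      _ = T2.opNorm p.2 ^ (2 * (m + 1)) := by ring

/-- the family of the partial isomorphisms -/
def GI (W : VI ι → T.E) (W' : VI ι' → T'.E) : Set (Set (T.E × T'.E)) :=
  {ρ | ∃ (κ : Type) (_ : Finite κ) (g : κ → ι) (g' : κ → ι'), Function.Injective g ∧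
    Function.Injective g' ∧ ρ = (gr W W' g g' : Set (T.E × T'.E))}

/-- finite supports -/
theorem span_finite (x : T.E) (hx : x ∈ Submodule.span ℂ (Set.range W)) :
    ∃ F : Finset ι, x ∈ Submodule.span ℂ (W '' {v | ∀ i, v i ≠ 0 → i ∈ F}) := by
  classical
  induction hx using Submodule.span_induction with
  | mem x hx =>
    obtain ⟨v, rfl⟩ := hx
    exact ⟨v.support, Submodule.subset_span ⟨v, fun i hi => Finsupp.mem_support_iff.2 hi, rfl⟩⟩
  | zero => exact ⟨∅, zero_mem _⟩
  | add a b _ _ ha hb =>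
    obtain ⟨F, hF⟩ := ha
    obtain ⟨G, hG⟩ := hb
    refine ⟨F ∪ G, add_mem ?_ ?_⟩
    · refine Submodule.span_mono ?_ hF
      rintro _ ⟨v, hv, rfl⟩
      exact ⟨v, fun i hi => Finset.mem_union_left _ (hv i hi), rfl⟩
    · refine Submodule.span_mono ?_ hG
      rintro _ ⟨v, hv, rfl⟩
      exact ⟨v, fun i hi => Finset.mem_union_right _ (hv i hi), rfl⟩
  | smul r a _ ha =>
    obtain ⟨F, hF⟩ := ha
    exact ⟨F, Submodule.smul_mem _ _ hF⟩

/-- extension of pairs of injections -/
theorem extend {κ : Type} [Finite κ] [Infinite ι'] (g : κ → ι) (g' : κ → ι')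
    (hg : Function.Injective g) (hg' : Function.Injective g') (F : Finset ι) :
    ∃ (κ' : Type) (_ : Finite κ') (k : κ' → ι) (k' : κ' → ι') (j : κ → κ'),
      Function.Injective k ∧ Function.Injective k' ∧ (∀ i, k (j i) = g i) ∧
      (∀ i, k' (j i) = g' i) ∧ ∀ i ∈ F, i ∈ Set.range k := by
  classical
  set D : Set ι := {i | i ∈ F ∧ i ∉ Set.range g} with hD
  have hDf : Finite D := (F.finite_toSet.subset (fun i hi => hi.1)).to_subtype
  have hinf : (Set.range g')ᶜ.Infinite := (Set.finite_range g').infinite_compl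
  have : Infinite ((Set.range g')ᶜ : Set ι') := hinf.to_subtype
  obtain ⟨e⟩ : Nonempty (D ↪ ((Set.range g')ᶜ : Set ι')) := by
    obtain ⟨n, ⟨f⟩⟩ := Finite.exists_equiv_fin D
    exact ⟨f.toEmbedding.trans (Fin.valEmbedding.trans (Infinite.natEmbedding _))⟩
  refine ⟨κ ⊕ D, inferInstance, Sum.elim g Subtype.val, Sum.elim g' (fun d => (e d : ι')), Sum.inl,
    ?_, ?_, fun i => rfl, fun i => rfl, ?_⟩
  · refine Function.Injective.sumElim hg Subtype.val_injective ?_
    intro a b hab
    exact b.2.2 ⟨a, hab⟩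
  · refine Function.Injective.sumElim hg' (Subtype.val_injective.comp e.injective) ?_
    intro a b hab
    exact (e b).2 ⟨a, hab⟩
  · intro i hi
    by_cases h : i ∈ Set.range g
    · obtain ⟨a, rfl⟩ := h
      exact ⟨Sum.inl a, rfl⟩
    · exact ⟨Sum.inr ⟨i, hi, h⟩, rfl⟩

theorem gr_forth [Infinite ι'] (h : PSys T W) (h' : PSys T' W') {κ : Type} [Finite κ]
    (g : κ → ι) (g' : κ → ι') (hg : Function.Injective g) (hg' : Function.Injective g') (r : ℕ)
    (y : T.E) (hy : T.opNorm y ≤ r) (δ : ℝ) (hδ : 0 < δ) :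
    ∃ (κ' : Type) (_ : Finite κ') (k : κ' → ι) (k' : κ' → ι'),
      Function.Injective k ∧ Function.Injective k' ∧ gr W W' g g' ≤ gr W W' k k' ∧
      ∃ p ∈ gr W W' k k', T.opNorm p.1 ≤ r ∧ T'.opNorm p.2 ≤ r ∧ T.norm2 (y - p.1) ≤ δ := by
  obtain ⟨s, hs, hys⟩ := h.dense y δ hδ
  obtain ⟨F, hF⟩ := span_finite s hs
  obtain ⟨κ', hκ', k, k', j, hk, hk', hj, hj', hr⟩ := extend g g' hg hg' F
  have : Finite (VI κ') := Finite.of_injective (fun v : VI κ' => (v : κ' → ZMod 2 × ZMod 2))
    DFunLike.coe_injective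
  have : Fintype (VI κ') := Fintype.ofFinite _
  refine ⟨κ', hκ', k, k', hk, hk', gr_mono j hj hj', ?_⟩
  have hoa := h.oa k hk
  have hsS : s ∈ Submodule.span ℂ (Set.range fun v : VI κ' => W (v.mapDomain k)) := by
    refine Submodule.span_mono ?_ hF
    rintro _ ⟨v, hv, rfl⟩
    refine ⟨v.comapDomain k hk.injOn, ?_⟩
    have : (v.comapDomain k hk.injOn).mapDomain k = v := by
      refine Finsupp.mapDomain_comapDomain k hk v ?_
      intro i hi
      exact hr i (hv i (Finsupp.mem_support_iff.1 (Finset.mem_coe.1 hi)))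
    simp only [this]
  obtain ⟨p, hp, hp1⟩ := exists_gr (W' := W') k k' (Eo_mem (w := fun v : VI κ' =>
    W (v.mapDomain k)) y)
  have h1 : T.opNorm p.1 ≤ r := by
    rw [hp1]
    exact (hoa.op_le y).trans hy
  refine ⟨p, hp, h1, ?_, ?_⟩
  · have hp' : p.swap ∈ gr W' W k' k := gr_swap hp
    exact ((gr_piso h' h hk' hk).op_le p.swap hp').trans h1
  · rw [hp1]
    exact (hoa.approx y hsS).trans hys.le

/-- The back-and-forth system. -/
theorem psys_bf [Infinite ι] [Infinite ι'] (h : PSys T W) (h' : PSys T' W') :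
    BF T T' (GI W W') where
  piso := by
    rintro _ ⟨κ, _, g, g', hg, hg', rfl⟩
    exact gr_piso h h' hg hg'
  forth := by
    rintro _ ⟨κ, _, g, g', hg, hg', rfl⟩ r y hy δ hδ
    obtain ⟨κ', hκ', k, k', hk, hk', hle, p, hp, h1, h2, h3⟩ :=
      gr_forth h h' g g' hg hg' r y hy δ hδ
    exact ⟨_, ⟨κ', hκ', k, k', hk, hk', rfl⟩, hle, p, hp, h1, h2, h3⟩
  back := by
    rintro _ ⟨κ, _, g, g', hg, hg', rfl⟩ r y hy δ hδ
    obtain ⟨κ', hκ', k, k', hk, hk', hle, p, hp, h1, h2, h3⟩ :=
      gr_forth h' h g' g hg' hg r y hy δ hδ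
    refine ⟨_, ⟨κ', hκ', k', k, hk', hk, rfl⟩, ?_, p.swap, gr_swap hp, h2, h1, h3⟩
    intro q hq
    have := gr_swap (hle (gr_swap hq))
    exact this

end Pool.Agent.N625.SI
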